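import Pool.Agent.Y854.GM.Win
import Pool.Agent.V11001.KM.Near

/-!
# Central values of quadratic twists: all forms over all number fields, all `D` near powers

Let `F` be a number field and `π` a cuspidal automorphic representation of `PGL_2` over `F`. Q1 asks for the bound
`|L(π ⊗ χ_D, 1/2)| ≤ C |D| ^ ρ`, `|D| = |N(D)|`, for every `ρ > 0` and all square-free `D`. We show: let `ν m / log m → ∞`,
for example `ν m = m`. For almost every real `x > 1`, for ALL number fields `F` and all `π` at once, for all `θ < 1` and all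
`ρ > 0` with `ρ > θ / 2`, this bound holds for ALL square-free `D` with `| |D| - x ^ (ν m) | ≤ x ^ (θ ν m)` for some `m`.
In particular for `θ = 0` it is the bound of Q1, with every `ρ > 0`, at all square-free `D` of norm within `1` of the powers
`x ^ m`. There is a version for windows around the numbers `α v_k`, for a fixed sequence `v` and almost every `α`.

The structure `TwistValues` lists what is used of `π`: the twist `π ⊗ χ_D` depends only on `D` modulo squares (of units),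
and the second moment bound `∑ |L(π ⊗ χ_D, 1/2)|² = O(X ^ (1 + ε))` over the square-free `D` with `|D| ≤ X`, modulo squares of
units. The latter is known (Heath-Brown's large sieve for quadratic characters, over number fields Goldmakher-Louvel and
Blomer-Goldmakher-Louvel; Perelli-Pomykała for `F = ℚ`).
-/

set_option autoImplicit false

namespace Pool.Agent.Results.MP_21d687_nt.AllFormsNearPowers

open NumberField Filter MeasureTheory
open Pool.Agent.V11001.KM (Fast Near)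

section
variable {F : Type} [Field F] [NumberField F]

/-- `D` is a square-free element of the ring of integers -/
def Sqf (D : 𝓞 F) : Prop := D ≠ 0 ∧ Squarefree (Ideal.span {D})

/-- `|D|` at the archimedean places together: the absolute value of the norm -/
noncomputable def size (D : 𝓞 F) : ℝ := |((Algebra.norm ℤ D : ℤ) : ℝ)|

end

/-- The central values `L D = L(π ⊗ χ_D, 1/2)` of the quadratic twists of a cuspidal representation `π` of `PGL_2` over `F`,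
and what is used of them: they do not change if `D` is multiplied by the square of a unit; and if no two members of the
set `R` of square-free integers differ by the square of a unit, then `∑ |L D|² |D| ^ (-s)`, `D` in `R`, converges for
`s > 1`. -/
structure TwistValues (F : Type) [Field F] [NumberField F] where
  L : 𝓞 F → ℂ
  unit_sq : ∀ (u : (𝓞 F)ˣ) (D : 𝓞 F), L ((u : 𝓞 F) ^ 2 * D) = L D
  secondMoment : ∀ R : Set (𝓞 F), (∀ D ∈ R, Sqf D) →
    (∀ D ∈ R, ∀ D' ∈ R, ∀ u : (𝓞 F)ˣ, D' = (u : 𝓞 F) ^ 2 * D → D' = D) →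
    ∀ s : ℝ, 1 < s → Summable fun D : R => ‖L D.1‖ ^ 2 * size D.1 ^ (-s)

section
variable {F : Type} [Field F] [NumberField F]

lemma one_le_size {D : 𝓞 F} (h : Sqf D) : 1 ≤ size D := by
  unfold size
  have h0 : (Algebra.norm ℤ D : ℤ) ≠ 0 := by
    rw [Ne, Algebra.norm_eq_zero_iff]
    exact h.1
  have h1 : (1 : ℤ) ≤ |(Algebra.norm ℤ D : ℤ)| := Int.one_le_abs h0
  exact_mod_cast h1

lemma size_unit (u : (𝓞 F)ˣ) (D : 𝓞 F) : size ((u : 𝓞 F) ^ 2 * D) = size D := by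
  unfold size
  have h1 : IsUnit (Algebra.norm ℤ (u : 𝓞 F)) := u.isUnit.map _
  have h2 : (Algebra.norm ℤ ((u : 𝓞 F) ^ 2 * D) : ℤ) = Algebra.norm ℤ D := by
    rw [map_mul, map_pow]
    rcases Int.isUnit_iff.1 h1 with h | h <;> rw [h] <;> ring
  rw [h2]

/-- square-free integers which differ by the square of a unit -/
def unitSetoid (F : Type) [Field F] [NumberField F] : Setoid (𝓞 F) where
  r D D' := ∃ u : (𝓞 F)ˣ, D' = (u : 𝓞 F) ^ 2 * D
  iseqv := by
    refine ⟨fun D => ⟨1, by simp⟩, ?_, ?_⟩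
    · rintro D D' ⟨u, rfl⟩
      refine ⟨u⁻¹, ?_⟩
      rw [← mul_assoc, ← mul_pow, Units.inv_mul]
      simp
    · rintro D D' D'' ⟨u, rfl⟩ ⟨v, rfl⟩
      refine ⟨v * u, ?_⟩
      push_cast
      ring

/-- a set of representatives -/
def Reps (F : Type) [Field F] [NumberField F] : Set (𝓞 F) :=
  {D | Sqf D ∧ (Quotient.mk (unitSetoid F) D).out = D}

lemma sqf_unit {u : (𝓞 F)ˣ} {D : 𝓞 F} (h : Sqf D) : Sqf ((u : 𝓞 F) ^ 2 * D) := by
  refine ⟨mul_ne_zero (pow_ne_zero 2 u.ne_zero) h.1, ?_⟩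
  have h1 : Ideal.span {(u : 𝓞 F) ^ 2 * D} = Ideal.span {D} :=
    Ideal.span_singleton_mul_left_unit (u.isUnit.pow 2) D
  rw [h1]
  exact h.2

lemma exists_rep {D : 𝓞 F} (h : Sqf D) : ∃ D' ∈ Reps F, ∃ u : (𝓞 F)ˣ, D = (u : 𝓞 F) ^ 2 * D' := by
  set q := Quotient.mk (unitSetoid F) D with hq
  have h1 : (unitSetoid F).r q.out D := Quotient.exact (s := unitSetoid F) (q.out_eq)
  obtain ⟨u, hu⟩ := h1
  refine ⟨q.out, ⟨?_, ?_⟩, u, hu⟩
  · obtain ⟨v, hv⟩ := (unitSetoid F).symm ⟨u, hu⟩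
    rw [hv]
    exact sqf_unit h
  · rw [Quotient.out_eq]

/-- the square-free `D` with a large central value, modulo squares of units -/
def Large (V : TwistValues F) (ρ : ℝ) : Set (𝓞 F) := {D | D ∈ Reps F ∧ size D ^ ρ ≤ ‖V.L D‖}

/-- their number -/
theorem count (V : TwistValues F) {ρ : ℝ} (hρ1 : ρ ≤ 1 / 2) (ε : ℝ) (hε : 0 < ε) :
    ∃ C : ℝ, ∀ X : ℝ, 1 ≤ X → {D | D ∈ Large V ρ ∧ size D ≤ X}.Finite ∧
      (({D | D ∈ Large V ρ ∧ size D ≤ X}.ncard : ℕ) : ℝ) ≤ C * X ^ (1 - 2 * ρ + ε) := by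
  classical
  have hS := V.secondMoment (Reps F) (fun D hD => hD.1) (by
    rintro D hD D' hD' u rfl
    have h1 : Quotient.mk (unitSetoid F) D = Quotient.mk (unitSetoid F) ((u : 𝓞 F) ^ 2 * D) :=
      Quotient.sound (s := unitSetoid F) ⟨u, rfl⟩
    rw [← hD'.2, ← h1, hD.2]) (1 + ε) (by linarith)
  set Φ : Reps F → ℝ := fun D => ‖V.L D.1‖ ^ 2 * size D.1 ^ (-(1 + ε)) with hΦ
  have hpos : ∀ D : Reps F, 0 ≤ Φ D := fun D => mul_nonneg (sq_nonneg _)
    (Real.rpow_nonneg (by linarith [one_le_size D.2.1]) _)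
  refine ⟨∑' D, Φ D, fun X hX => ?_⟩
  have hX0 : 0 < X := by linarith
  set c : ℝ := X ^ (2 * ρ - (1 + ε)) with hc
  have hc0 : 0 < c := Real.rpow_pos_of_pos hX0 _
  have hlow : ∀ D : Reps F, D.1 ∈ {D | D ∈ Large V ρ ∧ size D ≤ X} → c ≤ Φ D := by
    rintro ⟨D, hD⟩ ⟨⟨_, h1⟩, h2⟩
    have hN := one_le_size hD.1
    have hN0 : 0 < size D := by linarith
    simp only at h1 h2
    calc c ≤ size D ^ (2 * ρ - (1 + ε)) := Real.rpow_le_rpow_of_nonpos hN0 h2 (by linarith)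
      _ = (size D ^ ρ) ^ 2 * size D ^ (-(1 + ε)) := by
          rw [← Real.rpow_natCast (size D ^ ρ), ← Real.rpow_mul hN0.le, ← Real.rpow_add hN0]
          congr 1
          push_cast
          ring
      _ ≤ ‖V.L D‖ ^ 2 * size D ^ (-(1 + ε)) :=
          mul_le_mul_of_nonneg_right (pow_le_pow_left₀ (Real.rpow_nonneg hN0.le _) h1 2) (Real.rpow_nonneg hN0.le _)
  have hfin' : {D : Reps F | c ≤ Φ D}.Finite := by
    have h1 := hS.tendsto_cofinite_zero
    have h2 := h1.eventually (gt_mem_nhds hc0)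
    rw [Filter.eventually_cofinite] at h2
    refine h2.subset fun D hD => ?_
    exact not_lt.2 hD
  set G := hfin'.toFinset with hG
  have hcard : (G.card : ℝ) * c ≤ ∑' D, Φ D := by
    have h1 : (G.card : ℝ) * c ≤ ∑ D ∈ G, Φ D := by
      rw [← nsmul_eq_mul, ← Finset.sum_const]
      exact Finset.sum_le_sum fun D hD => hfin'.mem_toFinset.1 hD
    exact h1.trans (hS.sum_le_tsum _ fun D _ => hpos D)
  have hsub : {D | D ∈ Large V ρ ∧ size D ≤ X} ⊆ ((G.image Subtype.val : Finset (𝓞 F)) : Set (𝓞 F)) := by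
    intro D hD
    rw [Finset.mem_coe, Finset.mem_image]
    exact ⟨⟨D, hD.1.1⟩, hfin'.mem_toFinset.2 (hlow ⟨D, hD.1.1⟩ hD), rfl⟩
  refine ⟨(Finset.finite_toSet _).subset hsub, ?_⟩
  have h1 := Set.ncard_le_ncard hsub (Finset.finite_toSet _)
  rw [Set.ncard_coe_finset] at h1
  have h2 : (({D | D ∈ Large V ρ ∧ size D ≤ X}.ncard : ℕ) : ℝ) ≤ G.card := by
    exact_mod_cast h1.trans Finset.card_image_le
  have h3 : c * X ^ (1 - 2 * ρ + ε) = 1 := by
    rw [hc, ← Real.rpow_add hX0]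
    have : 2 * ρ - (1 + ε) + (1 - 2 * ρ + ε) = 0 := by ring
    rw [this, Real.rpow_zero]
  calc (({D | D ∈ Large V ρ ∧ size D ≤ X}.ncard : ℕ) : ℝ) ≤ G.card := h2
    _ = (G.card : ℝ) * c * X ^ (1 - 2 * ρ + ε) := by rw [mul_assoc, h3, mul_one]
    _ ≤ _ := mul_le_mul_of_nonneg_right hcard (Real.rpow_nonneg hX0.le _)

/-- the bound of Q1 with the exponent `ρ` and the constant `C` at all square-free `D` with `|D|` in `W` -/
def Bounded (V : TwistValues F) (ρ C : ℝ) (W : Set ℝ) : Prop :=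
  ∀ D : 𝓞 F, Sqf D → size D ∈ W → ‖V.L D‖ ≤ C * size D ^ ρ

/-- finitely many exceptions modulo squares of units can be absorbed in the constant -/
theorem bounded_of_finite {V : TwistValues F} {ρ' ρ : ℝ} (hρ0 : 0 ≤ ρ) (hρ : ρ' ≤ ρ) {W : Set ℝ}
    (h : {D | D ∈ Large V ρ' ∧ size D ∈ W}.Finite) : ∃ C : ℝ, Bounded V ρ C W := by
  classical
  refine ⟨1 + ∑ D ∈ h.toFinset, ‖V.L D‖, fun D hD hW => ?_⟩
  have hsum : 0 ≤ ∑ D ∈ h.toFinset, ‖V.L D‖ := Finset.sum_nonneg fun _ _ => norm_nonneg _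
  have hN := one_le_size hD
  have hpow : 1 ≤ size D ^ ρ := Real.one_le_rpow hN hρ0
  obtain ⟨D', hD', u, rfl⟩ := exists_rep hD
  rw [V.unit_sq]
  rw [size_unit] at hW hpow ⊢
  by_cases hl : D' ∈ Large V ρ'
  · have h1 : ‖V.L D'‖ ≤ ∑ D ∈ h.toFinset, ‖V.L D‖ :=
      Finset.single_le_sum (f := fun D => ‖V.L D‖) (fun _ _ => norm_nonneg _)
        (h.mem_toFinset.2 ⟨hl, hW⟩)
    nlinarith
  · have h1 : ‖V.L D'‖ < size D' ^ ρ' := by
      by_contra hcon
      exact hl ⟨hD', not_lt.1 hcon⟩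
    have h2 : size D' ^ ρ' ≤ size D' ^ ρ := Real.rpow_le_rpow_of_exponent_le (one_le_size hD'.1) hρ
    nlinarith

end

/-- **Theorem.** Let `V j` be the central values of the quadratic twists of a countable family of cuspidal representations
`π_j` of `PGL_2` over number fields `F_j` (for example all of them).
(1) Let `v ≥ 1` be a sequence of exponent of convergence at most `τ`, `θ < 1` and `0 < ρ ≤ 1/2`. For all `α > 0` outside a
set of Hausdorff dimension at most `(1 - 2 ρ + τ) / (1 - θ)` and all `j` there are `k₀` and `C` with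
`|L(π_j ⊗ χ_D, 1/2)| ≤ C |D| ^ ρ` for all square-free `D` with `| |D| - α v_k | ≤ v_k ^ θ` for some `k ≥ k₀`.
(2) Let `ν m / log m → ∞`, and let `U` be a countable set of reals. For almost every `x > 1`, for all `j`, all positive `y`
in `U`, all `θ < 1` and `ρ > 0` with `θ < 2 ρ` there is `C` with `|L(π_j ⊗ χ_D, 1/2)| ≤ C |D| ^ ρ` for all square-free `D` with
`| |D| - y x ^ (ν m) | ≤ x ^ (θ ν m)` for some `m`. For given `0 < ρ ≤ 1/2` and `θ < 1` the exceptional `x` form a set of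
Hausdorff dimension at most `(1 - 2 ρ) / (1 - θ)`. -/
theorem result {J : Type} [Countable J] (F : J → Type) [∀ j, Field (F j)] [∀ j, NumberField (F j)]
    (V : ∀ j, TwistValues (F j)) :
    (∀ (v : ℕ → ℝ) (τ θ ρ : ℝ), (∀ k, 1 ≤ v k) → 0 ≤ τ → (∀ t : ℝ, τ < t → Summable fun k : ℕ => v k ^ (-t)) → θ < 1 →
      0 < ρ → ρ ≤ 1 / 2 → ∃ E : Set ℝ, dimH E ≤ ENNReal.ofReal ((1 - 2 * ρ + τ) / (1 - θ)) ∧
        ∀ α : ℝ, 0 < α → α ∉ E → ∀ j, ∃ (k₀ : ℕ) (C : ℝ),
          Bounded (V j) ρ C {R : ℝ | ∃ k : ℕ, k₀ ≤ k ∧ |R - α * v k| ≤ v k ^ θ}) ∧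
    ∀ ν : ℕ → ℝ, Fast ν → ∀ U : Set ℝ, U.Countable →
      (∀ θ ρ : ℝ, θ < 1 → 0 < ρ → ρ ≤ 1 / 2 → ∃ E : Set ℝ, dimH E ≤ ENNReal.ofReal ((1 - 2 * ρ) / (1 - θ)) ∧
        ∀ x : ℝ, 1 < x → x ∉ E → ∀ y ∈ U, 0 < y → ∀ j, ∃ C : ℝ, Bounded (V j) ρ C {R : ℝ | Near ν θ y x R}) ∧
      ∀ᵐ x : ℝ, 1 < x → ∀ y ∈ U, 0 < y → ∀ j, ∀ θ ρ : ℝ, θ < 1 → 0 < ρ → θ < 2 * ρ →
        ∃ C : ℝ, Bounded (V j) ρ C {R : ℝ | Near ν θ y x R} := by
  classical
  refine ⟨fun v τ θ ρ hv hτ hexp hθ hρ0 hρ1 => ?_, fun ν hν U hU => ⟨fun θ ρ hθ hρ0 hρ1 => ?_, ?_⟩⟩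
  · choose E hE1 hE2 using fun j => Pool.Agent.Y854.GM.windows (Large (V j) ρ) (size (F := F j)) hv hτ hexp
      (s := 1 - 2 * ρ) (by linarith) hθ (fun ε hε => count (V j) hρ1 ε hε)
    refine ⟨⋃ j, E j, ?_, fun α hα hαE j => ?_⟩
    · rw [dimH_iUnion]
      exact iSup_le hE1
    · obtain ⟨k₀, hk₀⟩ := hE2 j α hα fun h => hαE (Set.mem_iUnion.2 ⟨j, h⟩)
      have hfin : {D | D ∈ Large (V j) ρ ∧ size D ∈ {R : ℝ | ∃ k : ℕ, k₀ ≤ k ∧ |R - α * v k| ≤ v k ^ θ}}.Finite := by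
        refine Set.finite_empty.subset ?_
        rintro D ⟨hD, k, hk, hw⟩
        exact absurd hw (not_le.2 (hk₀ k hk D hD))
      obtain ⟨C, hC⟩ := bounded_of_finite hρ0.le le_rfl hfin
      exact ⟨k₀, C, hC⟩
  · choose E hE1 hE2 using fun j => Pool.Agent.V11001.KM.family (size (F := F j)) hν (s := 1 - 2 * ρ) (by linarith)
      hθ U hU (J := Unit) (fun _ => Large (V j) ρ) (fun _ ε hε => count (V j) hρ1 ε hε)
    refine ⟨⋃ j, E j, ?_, fun x hx hxE y hy hy0 j => ?_⟩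
    · rw [dimH_iUnion]
      exact iSup_le hE1
    · exact bounded_of_finite hρ0.le le_rfl
        (hE2 j x hx (fun h => hxE (Set.mem_iUnion.2 ⟨j, h⟩)) y hy hy0 ())
  · have hq : ∀ (j : J) (ρ : ℚ), ∀ᵐ x : ℝ, 0 < (ρ : ℝ) → (ρ : ℝ) ≤ 1 / 2 → 1 < x → ∀ θ : ℝ,
        θ < 1 - (1 - 2 * (ρ : ℝ)) → ∀ y ∈ U, 0 < y →
          {D | D ∈ Large (V j) ρ ∧ size D ∈ {R : ℝ | Near ν θ y x R}}.Finite := by
      intro j ρ
      by_cases h : 0 < (ρ : ℝ) ∧ (ρ : ℝ) ≤ 1 / 2
      · filter_upwards [Pool.Agent.V11001.KM.ae_family (size (F := F j)) hν (s := 1 - 2 * (ρ : ℝ))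
          (by linarith [h.2]) U hU (J := Unit) (fun _ => Large (V j) ρ) (fun _ ε hε => count (V j) h.2 ε hε)]
          with x hx _ _ hx1 θ hθ y hy hy0
        exact hx hx1 θ hθ y hy hy0 ()
      · exact Eventually.of_forall fun x g1 g2 => absurd ⟨g1, g2⟩ h
    have hall : ∀ᵐ x : ℝ, ∀ (j : J) (ρ : ℚ), 0 < (ρ : ℝ) → (ρ : ℝ) ≤ 1 / 2 → 1 < x → ∀ θ : ℝ,
        θ < 1 - (1 - 2 * (ρ : ℝ)) → ∀ y ∈ U, 0 < y →
          {D | D ∈ Large (V j) ρ ∧ size D ∈ {R : ℝ | Near ν θ y x R}}.Finite := by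
      rw [ae_all_iff]
      intro j
      rw [ae_all_iff]
      exact hq j
    filter_upwards [hall] with x hx hx1 y hy hy0 j θ ρ hθ hρ0 hρ
    obtain ⟨ρ', hρ1, hρ2⟩ := exists_rat_btwn (show max 0 (θ / 2) < min ρ (1 / 2) from
      max_lt (lt_min hρ0 (by norm_num)) (lt_min (by linarith) (by linarith)))
    have h0 : 0 < (ρ' : ℝ) := (le_max_left _ _).trans_lt hρ1
    have h1 : θ / 2 < ρ' := (le_max_right _ _).trans_lt hρ1
    have h2 : (ρ' : ℝ) < ρ := hρ2.trans_le (min_le_left _ _)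
    have h3 : (ρ' : ℝ) < 1 / 2 := hρ2.trans_le (min_le_right _ _)
    exact bounded_of_finite hρ0.le h2.le (hx j ρ' h0 h3.le hx1 θ (by linarith) y hy hy0)

end Pool.Agent.Results.MP_21d687_nt.AllFormsNearPowers
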