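import Pool.Agent.Results.MP_21d687_nt.WindowsOfTwists
import Pool.Agent.V1172.PW.Eng2

/-!
# Quadratic twists of `PGL_2` over number fields: all squarefree `D` with norms in residue classes

Let `π_j`, `j` in a countable set, be cuspidal automorphic representations of `PGL_2` over number fields `F_j` (for example all
of them), `|D|` the absolute value of the norm of `D`, and `l` a prime number. We show:

(1) Let `s > 0`, `β ≤ 1/2`. For all `l`-adic integers `a` outside of a set of Hausdorff dimension at most `(1 - 2β) / s`, for all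
`j` and all large `T`: ALL squarefree `D` with `|D| ≤ T` and `| |D| - a |_l ≤ T^{-s}`, that is, with norm in the residue class
of `a` modulo the least power `l^f ≥ T^s`, satisfy `|L(π_j ⊗ χ_D, 1/2)| ≤ |D|^β`.

(2) There are countably many sets of `l`-adic integers of Hausdorff dimension less than one (their union is a Haar null set)
such that this holds for all `a` outside of all of them, all `j`, all `s > 0` and all `β > 0` with `2β > 1 - s`: for `s = 1` it is
the bound of Q1, every `β > 0`.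
-/

set_option autoImplicit false

namespace Pool.Agent.Results.MP_21d687_nt.NormsInResidueClasses

open MeasureTheory NumberField
open WindowsOfTwists (Twists Sqf nrm Reps)

/-- `|D| ≤ T` and `| |D| - a |_l ≤ T^{-s}`, that is, `|D|` is in the residue class of `a` modulo the least `l^f ≥ T^s` -/
def Near {F : Type} [Field F] [NumberField F] (l : ℕ) [Fact l.Prime] (s T : ℝ) (a : ℤ_[l]) (D : 𝓞 F) : Prop :=
  nrm D ≤ T ∧ ‖((Ideal.absNorm (Ideal.span {D}) : ℕ) : ℤ_[l]) - a‖ ≤ T ^ (-s)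

/-- one representation -/
theorem one {F : Type} [Field F] [NumberField F] (P : Twists F) (l : ℕ) [Fact l.Prime] (β s : ℝ) (hβ : 2 * β ≤ 1)
    (hs : 0 < s) :
    ∃ E : Set ℤ_[l], dimH E ≤ ENNReal.ofReal ((1 - 2 * β) / s) ∧ ∀ a : ℤ_[l], a ∉ E →
      ∃ T₀ : ℝ, ∀ T : ℝ, T₀ ≤ T → ∀ D : 𝓞 F, Sqf D → Near l s T a D → P.value D ≤ nrm D ^ β := by
  obtain ⟨E, h1, h2⟩ := Pool.Agent.V1172.PW.objs l (P := Reps F)
    (fun D => ((Ideal.absNorm (Ideal.span {D.1}) : ℕ) : ℤ)) (ι := Unit)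
    (fun _ => Pool.Agent.H274.GWin.Large (fun D : Reps F => nrm D.1) (fun D : Reps F => P.value D.1) β)
    (s := 1 - 2 * β) (by linarith)
    (fun _ ε hε => by
      obtain ⟨C, hC⟩ := Pool.Agent.H274.GWin.count (q := 2) (h := fun D : Reps F => nrm D.1)
        (v := fun D : Reps F => P.value D.1) WindowsOfTwists.one_le_nrm (WindowsOfTwists.moment P)
        (fun D => P.nonneg D.1) (κ := β) (by push_cast; linarith) ε hε
      refine ⟨C, fun X hX => ?_⟩
      have e : {t : Reps F | t ∈ Pool.Agent.H274.GWin.Large (fun D : Reps F => nrm D.1)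
            (fun D : Reps F => P.value D.1) β ∧ |((((Ideal.absNorm (Ideal.span {t.1}) : ℕ) : ℤ)) : ℝ)| ≤ X} =
          {t | t ∈ Pool.Agent.H274.GWin.Large (fun D : Reps F => nrm D.1) (fun D : Reps F => P.value D.1) β ∧
            nrm t.1 ≤ X} := by
        ext v
        refine and_congr_right fun _ => ?_
        rw [Int.cast_natCast, Nat.abs_cast]
        exact Iff.rfl
      rw [e]
      have := hC X hX
      push_cast at this
      exact this) hs
  refine ⟨E, h1, fun a ha => ?_⟩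
  obtain ⟨T₀, hT⟩ := h2 a ha ()
  refine ⟨T₀, fun T hT1 D hD hN => ?_⟩
  obtain ⟨ε, hε⟩ := WindowsOfTwists.rep_rel D
  have h3 : Ideal.span {D} = Ideal.span {WindowsOfTwists.rep D} := by
    have := WindowsOfTwists.span_eq (WindowsOfTwists.rep D) ε
    rwa [← hε] at this
  have h4 : nrm D = nrm (WindowsOfTwists.rep D) := by
    unfold WindowsOfTwists.nrm
    rw [h3]
  have h5 : P.value D = P.value (WindowsOfTwists.rep D) := by
    have := P.unit_sq (WindowsOfTwists.rep D) ε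
    rwa [← hε] at this
  obtain ⟨hN1, hN2⟩ := hN
  rw [h4] at hN1
  rw [h3] at hN2
  rw [h4, h5]
  by_contra hcon
  rw [not_le] at hcon
  refine hT T hT1 ⟨WindowsOfTwists.rep D, WindowsOfTwists.rep_mem hD⟩ ?_ ?_ ?_
  · rw [Int.cast_natCast, Nat.abs_cast]
    exact hN1
  · rw [Int.cast_natCast]
    exact hN2
  · exact hcon.le

/-- **Theorem.** Let `P j` be a countable family of representations of `PGL_2` over number fields and `l` a prime. (1) For all
`a ∈ ℤ_l` outside of a set of Hausdorff dimension at most `(1 - 2β) / s`, for all `j` and large `T`, `L(D) ≤ |D|^β` for all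
squarefree `D` with `|D| ≤ T` and `| |D| - a |_l ≤ T^{-s}`. (2) For all `a` outside of countably many sets of
Hausdorff dimension less than one (in particular for almost all `a`) this holds for all `s > 0` and `β > max (0, (1 - s) / 2)`. -/
theorem result {J : Type} [Countable J] (F : J → Type) [∀ j, Field (F j)] [∀ j, NumberField (F j)]
    (P : ∀ j, Twists (F j)) (l : ℕ) [Fact l.Prime] :
    (∀ β s : ℝ, 2 * β ≤ 1 → 0 < s → ∃ E : Set ℤ_[l], dimH E ≤ ENNReal.ofReal ((1 - 2 * β) / s) ∧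
      ∀ a : ℤ_[l], a ∉ E → ∀ j : J, ∃ T₀ : ℝ, ∀ T : ℝ, T₀ ≤ T → ∀ D : 𝓞 (F j), Sqf D → Near l s T a D →
        (P j).value D ≤ nrm D ^ β) ∧
    ∃ E : ℚ → ℚ → Set ℤ_[l], (∀ r t, dimH (E r t) < 1) ∧ ∀ a : ℤ_[l], (∀ r t, a ∉ E r t) → ∀ (j : J) (s β : ℝ),
      0 < s → 0 < β → 1 - s < 2 * β → ∃ T₀ : ℝ, ∀ T : ℝ, T₀ ≤ T → ∀ D : 𝓞 (F j), Sqf D → Near l s T a D →
        (P j).value D ≤ nrm D ^ β := by
  have h0 : ∀ β s : ℝ, 2 * β ≤ 1 → 0 < s → ∃ E : Set ℤ_[l], dimH E ≤ ENNReal.ofReal ((1 - 2 * β) / s) ∧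
      ∀ a : ℤ_[l], a ∉ E → ∀ j : J, ∃ T₀ : ℝ, ∀ T : ℝ, T₀ ≤ T → ∀ D : 𝓞 (F j), Sqf D → Near l s T a D →
        (P j).value D ≤ nrm D ^ β := by
    intro β s hβ hs
    choose E hE1 hE2 using fun j => one (P j) l β s hβ hs
    refine ⟨⋃ j, E j, ?_, fun a haE j => hE2 j a fun h => haE (Set.mem_iUnion.2 ⟨j, h⟩)⟩
    rw [dimH_iUnion]
    exact iSup_le hE1
  refine ⟨h0, ?_⟩
  have h1 : ∀ r t : ℚ, ∃ E : Set ℤ_[l], dimH E < 1 ∧
      (2 * (r : ℝ) ≤ 1 → 0 < (t : ℝ) → 1 - (t : ℝ) < 2 * r → ∀ a : ℤ_[l], a ∉ E → ∀ j : J,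
        ∃ T₀ : ℝ, ∀ T : ℝ, T₀ ≤ T → ∀ D : 𝓞 (F j), Sqf D → Near l (t : ℝ) T a D → (P j).value D ≤ nrm D ^ (r : ℝ)) := by
    intro r t
    by_cases hc : 2 * (r : ℝ) ≤ 1 ∧ 0 < (t : ℝ) ∧ 1 - (t : ℝ) < 2 * r
    · obtain ⟨c1, c2, c3⟩ := hc
      obtain ⟨E, hE1, hE2⟩ := h0 r t c1 c2
      refine ⟨E, hE1.trans_lt ?_, fun _ _ _ => hE2⟩
      rw [ENNReal.ofReal_lt_one, div_lt_one c2]
      linarith
    · exact ⟨∅, by simp, fun h1 h2 h3 => absurd ⟨h1, h2, h3⟩ hc⟩
  choose E hE1 hE2 using h1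
  refine ⟨E, hE1, fun a ha j s β hs hβ hsβ => ?_⟩
  · obtain ⟨t, ht1, ht2⟩ := exists_rat_btwn (show max 0 (1 - 2 * β) < s from max_lt hs (by linarith))
    have ht0 : 0 < (t : ℝ) := (le_max_left _ _).trans_lt ht1
    have ht3 : 1 - 2 * β < t := (le_max_right _ _).trans_lt ht1
    obtain ⟨r, hr1, hr2⟩ := exists_rat_btwn (show (1 - (t : ℝ)) / 2 < min β (1 / 2) from
      lt_min (by linarith) (by linarith))
    have hr3 : (r : ℝ) < β := hr2.trans_le (min_le_left _ _)
    have hr4 : (r : ℝ) < 1 / 2 := hr2.trans_le (min_le_right _ _)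
    obtain ⟨T₀, hT⟩ := hE2 r t (by linarith) ht0 (by linarith) a
      (ha r t) j
    refine ⟨max T₀ 1, fun T hT1 D hD hN => ?_⟩
    have hT0 : T₀ ≤ T := (le_max_left _ _).trans hT1
    have hT2 : 1 ≤ T := (le_max_right _ _).trans hT1
    have hn : 1 ≤ nrm D := by
      have hne : Ideal.absNorm (Ideal.span {D}) ≠ 0 := by
        rw [Ne, Ideal.absNorm_eq_zero_iff]
        exact hD.ne_zero
      unfold WindowsOfTwists.nrm
      exact_mod_cast Nat.one_le_iff_ne_zero.2 hne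
    refine (hT T hT0 D hD ⟨hN.1, hN.2.trans ?_⟩).trans ?_
    · exact Real.rpow_le_rpow_of_exponent_le hT2 (by linarith)
    · exact Real.rpow_le_rpow_of_exponent_le hn hr3.le

end Pool.Agent.Results.MP_21d687_nt.NormsInResidueClasses
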