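import Pool.Agent.Results.MP_52e316_nt.TwistsNearPowers
import Pool.Agent.V11153.LW

/-!
# All quadratic twists in logarithmic windows: central values bounded by powers of the logarithm

`E : y² = x³ + a x + b` is an elliptic curve over `ℚ` with `j`-invariant `0` or `1728`, or a quadratic twist of `X₀(11)` or
`X₀(14)`, `K = ℚ(√e_1, …, √e_n)` is a multiquadratic field (`n = 0` is `K = ℚ`), and `L(E_d/K, s)` are the `L`-functions
over `K` of the quadratic twists `E_d`, `d` squarefree, with centre `s = 1`. Let `v_m ≥ 1` be a sequence with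
`log v_m ≥ m ^ δ` for some `δ > 0` and all large `m`, for example `v_m = 2 ^ m`. For every `B` there are exponents `κ` such
that for almost every `α > 0`, for ALL these curves and fields at once, all large `m` and ALL squarefree `d` (positive or
negative) with `| |d| - α v_m | ≤ (log v_m) ^ B`: `|L(E_d/K, 1 + i t)| ≤ ((log |d|) (2 + |t|)) ^ κ` for all real `t`. This
is stronger than the Lindelöf bound `|L(E_d/K, 1)| = O(|d| ^ β)` for all `β > 0`.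
-/

set_option autoImplicit false

namespace Pool.Agent.Results.MP_21d687_nt.TwistsInLogWindows

open Complex NumberField Filter
open Pool.Agent.Y19.QT
open Pool.Agent.V11285.W4 (Fast)
open Pool.Agent.Results.MP_52e316_nt.TwistsNearPowers (MQ root root_sq root_adjoin)

/-- The squarefree `d` for which the `L`-function `F` over `K = ℚ(√e_1, …, √e_n)` of the twist
`E_d : y² = x³ + a d² x + b d³` does not satisfy `|F(1 + i t)| ≤ ((log |d|) (2 + |t|)) ^ k` for all real `t`. -/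
def Large (a b : ℤ) {n : ℕ} (e : Fin n → ℤ) (k : ℕ) : Set ℤ :=
  {d : ℤ | Squarefree d ∧ ∃ F : ℂ → ℂ, IsLFunK (MQ e) (a * d ^ 2) (b * d ^ 3) (∏ i, e i) F ∧
    ∃ t : ℝ, (Real.log |(d : ℝ)| * (2 + |t|)) ^ k < ‖F (1 + t * I)‖}

lemma eventually_bound (C : ℝ) (k P : ℕ) : ∃ X₀ : ℕ, ∀ X : ℕ, X₀ ≤ X → 3 ≤ X ∧ (2 : ℝ) ^ (k + 1) ≤ Real.log X ∧
    (X : ℝ) ^ (1 / 2 : ℝ) + C * X / Real.log X ^ (P + 1) ≤ X / Real.log X ^ P := by
  have h0 : Tendsto (fun X : ℕ => (X : ℝ)) atTop atTop := tendsto_natCast_atTop_atTop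
  have h1 : Tendsto (fun X : ℕ => Real.log (X : ℝ)) atTop atTop := Real.tendsto_log_atTop.comp h0
  have h2 : ∀ᶠ X : ℕ in atTop, Real.log (X : ℝ) ^ P ≤ 1 / 2 * (X : ℝ) ^ (1 / 2 : ℝ) := by
    have h3 : (fun x : ℝ => Real.log x ^ P) =o[atTop] (fun x : ℝ => x ^ (1 / 2 : ℝ)) := by
      have := isLittleO_log_rpow_rpow_atTop (s := 1 / 2) (P : ℝ) (by norm_num)
      simpa using this
    filter_upwards [h0.eventually (h3.bound (show (0 : ℝ) < 1 / 2 by norm_num)), h1.eventually_ge_atTop 0,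
      eventually_ge_atTop 1] with X hX hX1 hX2
    rw [Real.norm_of_nonneg (pow_nonneg hX1 _), Real.norm_of_nonneg (Real.rpow_nonneg (Nat.cast_nonneg _) _)] at hX
    exact hX
  obtain ⟨X₀, hX₀⟩ := ((eventually_ge_atTop 3).and ((h1.eventually_ge_atTop ((2 : ℝ) ^ (k + 1))).and
    ((h1.eventually_ge_atTop (2 * |C| + 1)).and h2))).exists_forall_of_atTop
  refine ⟨X₀, fun X hX => ?_⟩
  obtain ⟨g1, g2, g3, g4⟩ := hX₀ X hX
  refine ⟨g1, g2, ?_⟩
  have hX0 : (0 : ℝ) < X := by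
    have : (3 : ℝ) ≤ X := by exact_mod_cast g1
    linarith
  set L : ℝ := Real.log X with hL
  have hL0 : 0 < L := by linarith [abs_nonneg C]
  have h5 : (X : ℝ) ^ (1 / 2 : ℝ) * (X : ℝ) ^ (1 / 2 : ℝ) = X := by
    rw [← Real.rpow_add hX0]
    norm_num
  have h6 : (X : ℝ) ^ (1 / 2 : ℝ) ≤ X / 2 / L ^ P := by
    rw [le_div_iff₀ (by positivity)]
    calc (X : ℝ) ^ (1 / 2 : ℝ) * L ^ P ≤ (X : ℝ) ^ (1 / 2 : ℝ) * (1 / 2 * (X : ℝ) ^ (1 / 2 : ℝ)) :=
          mul_le_mul_of_nonneg_left g4 (Real.rpow_nonneg hX0.le _)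
      _ = X / 2 := by
          rw [show (X : ℝ) ^ (1 / 2 : ℝ) * (1 / 2 * (X : ℝ) ^ (1 / 2 : ℝ)) =
            1 / 2 * ((X : ℝ) ^ (1 / 2 : ℝ) * (X : ℝ) ^ (1 / 2 : ℝ)) by ring, h5]
          ring
  have h7 : C * X / L ^ (P + 1) ≤ X / 2 / L ^ P := by
    rw [pow_succ, div_le_div_iff₀ (by positivity) (by positivity)]
    have h8 : C ≤ 1 / 2 * L := by linarith [le_abs_self C]
    have h9 : 0 < (X : ℝ) * L ^ P := by positivity
    nlinarith [mul_le_mul_of_nonneg_right h8 h9.le]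
  have h10 : (X : ℝ) / 2 / L ^ P + X / 2 / L ^ P = X / L ^ P := by ring
  linarith

/-- existence and uniqueness of the `L`-functions, and the count of the twists with large values -/
lemma law {a b : ℤ} (hab : Fam a b) {n : ℕ} {e : Fin n → ℤ} (he : Indep e) :
    (∀ d : ℤ, Squarefree d → ∃! F : ℂ → ℂ, IsLFunK (MQ e) (a * d ^ 2) (b * d ^ 3) (∏ i, e i) F) ∧
    ∀ P : ℕ, ∃ k : ℕ, ∃ X₀ : ℕ, ∀ X : ℕ, X₀ ≤ X →
      ({N : ℕ | 1 ≤ N ∧ N ≤ X ∧ ∃ d ∈ Large a b e k, d.natAbs = N}.ncard : ℝ) ≤ X / Real.log X ^ P := by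
  classical
  obtain ⟨huniq, hlaw⟩ := multiLindelof_fam hab n e he (MQ e) (root e) (root_sq e) (root_adjoin e)
  refine ⟨huniq, fun P => ?_⟩
  choose F hF hF' using huniq
  obtain ⟨-, hthird⟩ := hlaw (fun d => if h : Squarefree d then F d h else 0) (by
    intro d hd
    simp only [hd, dif_pos]
    exact hF d hd)
  obtain ⟨C, k', hC⟩ := hthird (P + 1)
  obtain ⟨X₀, hX₀⟩ := eventually_bound C k' P
  refine ⟨k' + 1, X₀, fun X hX => ?_⟩
  obtain ⟨hX3, hlog, hbound⟩ := hX₀ X hX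
  have hX0 : (0 : ℝ) < X := by
    have : (3 : ℝ) ≤ X := by exact_mod_cast hX3
    linarith
  have hL0 : 0 < Real.log X := lt_of_lt_of_le (by positivity) hlog
  set S : Finset ℤ := (sqf X).filter fun d => d ∈ Large a b e (k' + 1) ∧ (X : ℝ) ^ (1 / 2 : ℝ) < |(d : ℝ)| with hS
  have hcard := hC X S hX3 (Finset.filter_subset _ _) (by
    intro d hd
    obtain ⟨hd1, ⟨hsq, F', hF1, t, ht⟩, hd2⟩ := Finset.mem_filter.1 hd
    refine ⟨t, ?_⟩
    simp only [hsq, dif_pos]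
    rw [← hF' d hsq F' hF1]
    refine lt_of_le_of_lt ?_ ht
    have h1 : Real.log X / 2 ≤ Real.log |(d : ℝ)| := by
      have h2 := Real.log_le_log (Real.rpow_pos_of_pos hX0 _) hd2.le
      rw [Real.log_rpow hX0] at h2
      linarith
    have ht2 : (2 : ℝ) ≤ 2 + |t| := by linarith [abs_nonneg t]
    have h3 : Real.log X / 2 * (2 + |t|) ≤ Real.log |(d : ℝ)| * (2 + |t|) :=
      mul_le_mul_of_nonneg_right h1 (by linarith)
    refine le_trans ?_ (pow_le_pow_left₀ (by positivity) h3 (k' + 1))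
    have h4 : (Real.log X / 2 * (2 + |t|)) ^ (k' + 1) =
        (Real.log X * (2 + |t|)) ^ k' * (Real.log X * (2 + |t|) / 2 ^ (k' + 1)) := by
      rw [show Real.log X / 2 * (2 + |t|) = Real.log X * (2 + |t|) / 2 by ring, div_pow, pow_succ]
      ring
    rw [h4]
    apply le_mul_of_one_le_right (by positivity)
    rw [le_div_iff₀ (by positivity), one_mul]
    calc (2 : ℝ) ^ (k' + 1) ≤ Real.log X := hlog
      _ ≤ Real.log X * (2 + |t|) := le_mul_of_one_le_right hL0.le (by linarith))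
  have hsub : {N : ℕ | 1 ≤ N ∧ N ≤ X ∧ ∃ d ∈ Large a b e (k' + 1), d.natAbs = N} ⊆
      ((Finset.Icc 1 ⌊(X : ℝ) ^ (1 / 2 : ℝ)⌋₊ ∪ S.image Int.natAbs : Finset ℕ) : Set ℕ) := by
    rintro N ⟨hN1, hNX, d, hd, rfl⟩
    rw [Finset.coe_union, Set.mem_union, Finset.mem_coe, Finset.mem_coe]
    by_cases h : (X : ℝ) ^ (1 / 2 : ℝ) < |(d : ℝ)|
    · right
      refine Finset.mem_image.2 ⟨d, Finset.mem_filter.2 ⟨mem_sqf.2 ⟨?_, hd.1⟩, hd, h⟩, rfl⟩
      rw [Int.abs_eq_natAbs]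
      exact_mod_cast hNX
    · left
      rw [Finset.mem_Icc]
      refine ⟨hN1, Nat.le_floor ?_⟩
      rw [Nat.cast_natAbs, Int.cast_abs]
      exact not_lt.1 h
  have h1 := Set.ncard_le_ncard hsub (Finset.finite_toSet _)
  rw [Set.ncard_coe_finset] at h1
  have h2 := h1.trans ((Finset.card_union_le _ _).trans (Nat.add_le_add_left Finset.card_image_le _))
  rw [Nat.card_Icc, Nat.add_sub_cancel] at h2
  have h3 : ({N : ℕ | 1 ≤ N ∧ N ≤ X ∧ ∃ d ∈ Large a b e (k' + 1), d.natAbs = N}.ncard : ℝ) ≤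
      (⌊(X : ℝ) ^ (1 / 2 : ℝ)⌋₊ : ℝ) + S.card := by exact_mod_cast h2
  have h4 : (⌊(X : ℝ) ^ (1 / 2 : ℝ)⌋₊ : ℝ) ≤ (X : ℝ) ^ (1 / 2 : ℝ) := Nat.floor_le (Real.rpow_nonneg hX0.le _)
  linarith

/-- **Theorem.** Let `E : y² = x³ + a x + b` have `j`-invariant `0` or `1728` or be a quadratic twist of `X₀(11)` or
`X₀(14)` (`Fam a b`), let `K = MQ e = ℚ(√e_1, …, √e_n)` with integers `e_i` which are independent modulo squares, and for
squarefree `d` (positive or negative) let `F` be the (entire) `L`-function over `K` of `E_d : y² = x³ + a d² x + b d³`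
without the Euler factors at the places dividing `2 (4a³ + 27b²) d ∏ e_i`; it exists and is unique. Let `v ≥ 1` be a
sequence with `log v_m ≥ m ^ δ` for some `δ > 0` and all large `m`, and `B ≥ 0`. There are exponents `κ = κ(a, b, n, e)`
such that for almost every `α > 0`, all these curves and fields, all large `m` and all squarefree `d` with
`| |d| - α v_m | ≤ (log v_m) ^ B` one has `|F(1 + i t)| ≤ ((log |d|) (2 + |t|)) ^ κ` for all real `t`. The sequences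
`v_m = b ^ m`, `b > 1`, are examples. -/
theorem result :
    (∀ a b : ℤ, Fam a b → ∀ (n : ℕ) (e : Fin n → ℤ), Indep e → ∀ d : ℤ, Squarefree d →
      ∃! F : ℂ → ℂ, IsLFunK (MQ e) (a * d ^ 2) (b * d ^ 3) (∏ i, e i) F) ∧
    (∀ v : ℕ → ℝ, (∀ m, 1 ≤ v m) → Fast v → ∀ B : ℕ,
      ∃ κ : ℤ → ℤ → (n : ℕ) → (Fin n → ℤ) → ℕ, ∀ᵐ α : ℝ, 0 < α → ∀ a b : ℤ, Fam a b →
        ∀ (n : ℕ) (e : Fin n → ℤ), Indep e → ∃ m₀ : ℕ, ∀ m : ℕ, m₀ ≤ m → ∀ d : ℤ, Squarefree d →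
          |(|(d : ℝ)|) - α * v m| ≤ (Real.log (v m)) ^ B →
          ∀ F : ℂ → ℂ, IsLFunK (MQ e) (a * d ^ 2) (b * d ^ 3) (∏ i, e i) F →
            ∀ t : ℝ, ‖F (1 + t * I)‖ ≤ (Real.log |(d : ℝ)| * (2 + |t|)) ^ (κ a b n e)) ∧
    ∀ b : ℝ, 1 < b → Fast (fun m : ℕ => b ^ m) := by
  classical
  refine ⟨fun a b hab n e he => (law hab he).1, fun v hv hf B => ?_, Pool.Agent.V11285.W4.fast_geom⟩
  have h : ∀ (a b : ℤ) (n : ℕ) (e : Fin n → ℤ), ∃ k : ℕ, ∀ᵐ α : ℝ, Fam a b → Indep e → 0 < α →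
      ∃ n₀ : ℕ, ∀ m : ℕ, n₀ ≤ m → ∀ N : ℕ, 1 ≤ N → |(N : ℝ) - α * v m| ≤ (Real.log (v m)) ^ B →
        ¬ ∃ d ∈ Large a b e k, d.natAbs = N := by
    intro a b n e
    by_cases h : Fam a b ∧ Indep e
    · obtain ⟨k, hk⟩ := Pool.Agent.V11153.LW.ae_log_family (fun k N => ∃ d ∈ Large a b e k, d.natAbs = N)
        (law h.1 h.2).2 hv hf B
      exact ⟨k, hk.mono fun α hα _ _ => hα⟩
    · exact ⟨0, Eventually.of_forall fun α g1 g2 => absurd ⟨g1, g2⟩ h⟩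
  choose κ hκ using h
  refine ⟨κ, ?_⟩
  have hall : ∀ᵐ α : ℝ, ∀ (a b : ℤ) (n : ℕ) (e : Fin n → ℤ), Fam a b → Indep e → 0 < α →
      ∃ n₀ : ℕ, ∀ m : ℕ, n₀ ≤ m → ∀ N : ℕ, 1 ≤ N → |(N : ℝ) - α * v m| ≤ (Real.log (v m)) ^ B →
        ¬ ∃ d ∈ Large a b e (κ a b n e), d.natAbs = N := by
    rw [MeasureTheory.ae_all_iff]
    intro a
    rw [MeasureTheory.ae_all_iff]
    intro b
    rw [MeasureTheory.ae_all_iff]
    intro n
    rw [MeasureTheory.ae_all_iff]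
    exact hκ a b n
  filter_upwards [hall] with α hα hα0 a b hab n e he
  obtain ⟨n₀, hn₀⟩ := hα a b n e hab he hα0
  refine ⟨n₀, fun m hm d hd hw F hF t => ?_⟩
  by_contra hcon
  push Not at hcon
  refine hn₀ m hm d.natAbs (Int.natAbs_pos.2 hd.ne_zero) ?_ ⟨d, ⟨hd, F, hF, t, hcon⟩, rfl⟩
  rw [Nat.cast_natAbs, Int.cast_abs]
  exact hw

end Pool.Agent.Results.MP_21d687_nt.TwistsInLogWindows
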