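import Mathlib
import Pool.Agent.H274.GWin

/-!
# The Lindelöf bound for all quadratic twists of `PGL_2` over number fields in windows

Let `F` be a number field, `π` a cuspidal automorphic representation of `PGL_2(𝔸_F)`, and let `L(D) = |L(π ⊗ χ_D, 1/2)|`
for squarefree `D ∈ 𝓞_F`, `|D| = |N(D)|`. Let `1 ≤ u_0, u_1, …` be reals with `∑ u_m^{-t} < ∞` for `t > τ` (`τ = 0` for
geometric sequences, `τ = 1/d` for `u_m = m^d`), and `θ < 1`. We show, for `0 < β ≤ 1/2`: for all `a > 0` outside of a set of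
Hausdorff dimension at most `(1 - 2β + τ) / (1 - θ)`, for ALL `F` and `π` there is a constant `C` such that

  `L(D) ≤ C |D|^β` for all squarefree `D ∈ 𝓞_F` with `||D| - a u_m| ≤ u_m^θ` for some `m`.

In particular for almost all `a > 0` this holds for ALL number fields `F`, ALL `π` (there are countably many) and all
`β > (θ + τ) / 2`. For narrow windows around the members of a geometric sequence, `θ ≤ 0`, this is the Lindelöf bound, with
every `β > 0`, for all squarefree `D` in the windows.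

For all `D` a subconvex bound is known over every number field (Michel-Venkatesh), and for `F = ℚ` every `β > 1/3`
(Conrey-Iwaniec, Petrow-Young). For geometric sequences the exponents here are smaller for all windows with `θ < 2/3`.

The structure `Twists` lists what is used of `π`: `L(D)` does not change if `D` is multiplied by the square of a unit, and the
series `∑ L(D)² |D|^{-s}`, over squarefree `D` modulo squares of units, converges for `s > 1`. It is known: by the approximate
functional equation and the large sieve for quadratic characters (Heath-Brown for `F = ℚ`, Goldmakher-Louvel for number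
fields) `∑_{|D| ≤ X} L(D)² ≪ X^{1+ε}` (for `F = ℚ` see Perelli-Pomykała, Soundararajan-Young).

For results of this kind for special elliptic curves over multiquadratic fields, where the moments are proved in Lean, see
`MP_52e316_nt.WindowsOfTwists` and `MP_21d687_nt.TwistsInLogWindows`; here all `π`, all number fields `F` and all squarefree
`D ∈ 𝓞_F` are treated simultaneously, from the known second moment.

The proof: at most `O(X^{1 - 2β + ε})` classes of `D` with `|D| ≤ X` have `L(D) ≥ |D|^β`, and the `a` for which these are in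
infinitely many windows are covered by `Pool.Agent.Y854.GM.windows`.
-/

set_option autoImplicit false

namespace Pool.Agent.Results.MP_21d687_nt.WindowsOfTwists

open Filter MeasureTheory NumberField

/-- `|D|`, the absolute value of the norm of `D` -/
noncomputable def nrm {F : Type} [Field F] [NumberField F] (D : 𝓞 F) : ℝ := (Ideal.absNorm (Ideal.span {D}) : ℝ)

/-- `D` is squarefree (in particular nonzero) -/
def Sqf {F : Type} [Field F] [NumberField F] (D : 𝓞 F) : Prop := Squarefree (Ideal.span {D})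

/-- The absolute values `value D = |L(π ⊗ χ_D, 1/2)|` of the central values of the quadratic twists of a cuspidal
representation `π` of `PGL_2` over `F`, and what is used of them. -/
structure Twists (F : Type) [Field F] [NumberField F] where
  value : 𝓞 F → ℝ
  nonneg : ∀ D, 0 ≤ value D
  unit_sq : ∀ (D : 𝓞 F) (ε : (𝓞 F)ˣ), value (D * (ε : 𝓞 F) ^ 2) = value D
  secondMoment : ∀ R : Set (𝓞 F), (∀ D ∈ R, Sqf D) →
    (∀ D ∈ R, ∀ D' ∈ R, ∀ ε : (𝓞 F)ˣ, D' = D * (ε : 𝓞 F) ^ 2 → D' = D) →
    ∀ s : ℝ, 1 < s → Summable fun D : R => value D.1 ^ 2 * nrm D.1 ^ (-s)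

section
variable {F : Type} [Field F] [NumberField F]

/-- `L(D) ≤ C |D|^β` for all squarefree `D` in the windows around `a u_m` -/
def Bounded (P : Twists F) (β a θ : ℝ) (u : ℕ → ℝ) (C : ℝ) : Prop :=
  ∀ (m : ℕ) (D : 𝓞 F), Sqf D → |nrm D - a * u m| ≤ u m ^ θ → P.value D ≤ C * nrm D ^ β

/-- multiplication by squares of units -/
def rel : Setoid (𝓞 F) where
  r D D' := ∃ ε : (𝓞 F)ˣ, D' = D * (ε : 𝓞 F) ^ 2
  iseqv := by
    refine ⟨fun D => ⟨1, by simp⟩, ?_, ?_⟩
    · rintro D D' ⟨ε, rfl⟩
      refine ⟨ε⁻¹, ?_⟩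
      rw [mul_assoc, ← mul_pow, Units.mul_inv, one_pow, mul_one]
    · rintro D D' D'' ⟨ε, rfl⟩ ⟨δ, rfl⟩
      refine ⟨ε * δ, ?_⟩
      push_cast
      ring

/-- the representative of the class of `D` -/
noncomputable def rep (D : 𝓞 F) : 𝓞 F := (Quotient.mk rel D).out

theorem rep_rel (D : 𝓞 F) : ∃ ε : (𝓞 F)ˣ, D = rep D * (ε : 𝓞 F) ^ 2 :=
  Quotient.exact (s := rel) (Quotient.out_eq (Quotient.mk rel D))

theorem rep_rep {D D' : 𝓞 F} {ε : (𝓞 F)ˣ} (h : D' = D * (ε : 𝓞 F) ^ 2) : rep D' = rep D := by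
  unfold rep
  congr 1
  exact (Quotient.sound (s := rel) ⟨ε, h⟩ : Quotient.mk rel D = Quotient.mk rel D').symm

theorem span_eq (D : 𝓞 F) (ε : (𝓞 F)ˣ) : Ideal.span {D * (ε : 𝓞 F) ^ 2} = Ideal.span {D} := by
  have : IsUnit ((ε : 𝓞 F) ^ 2) := ε.isUnit.pow 2
  exact Ideal.span_singleton_mul_right_unit this D

/-- the set of the squarefree representatives -/
def Reps (F : Type) [Field F] [NumberField F] : Set (𝓞 F) := {D | Sqf D ∧ rep D = D}

theorem rep_mem {D : 𝓞 F} (hD : Sqf D) : rep D ∈ Reps F := by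
  obtain ⟨ε, hε⟩ := rep_rel D
  refine ⟨?_, (rep_rep hε).symm⟩
  unfold Sqf at *
  rwa [hε, span_eq] at hD

theorem one_le_nrm (D : Reps F) : 1 ≤ nrm D.1 := by
  have h0 : Ideal.absNorm (Ideal.span {D.1}) ≠ 0 := by
    rw [Ne, Ideal.absNorm_eq_zero_iff]
    exact D.2.1.ne_zero
  unfold nrm
  exact_mod_cast Nat.one_le_iff_ne_zero.2 h0

theorem moment (P : Twists F) (s : ℝ) (hs : 1 < s) : Summable fun D : Reps F => P.value D.1 ^ 2 * nrm D.1 ^ (-s) :=
  P.secondMoment (Reps F) (fun _ hD => hD.1) (fun D hD D' hD' ε h => by rw [← hD.2, ← hD'.2, rep_rep h]) s hs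

/-- from the representatives to all `D` -/
theorem bounded_of {P : Twists F} {β a θ : ℝ} {u : ℕ → ℝ} {C : ℝ}
    (h : Pool.Agent.H274.GWin.Bounded (fun D : Reps F => nrm D.1) (fun D : Reps F => P.value D.1) β a θ u C) :
    Bounded P β a θ u C := by
  intro m D hD hm
  obtain ⟨ε, hε⟩ := rep_rel D
  have h1 : nrm D = nrm (rep D) := by
    unfold nrm
    rw [hε, span_eq, ← hε]
  have h2 : P.value D = P.value (rep D) := by
    have := P.unit_sq (rep D) ε
    rwa [← hε] at this
  rw [h1] at hm ⊢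
  rw [h2]
  exact h m ⟨rep D, rep_mem hD⟩ hm

end

/-- **Theorem.** Let `P j` be a countable family of representations of `PGL_2` over number fields, let `1 ≤ u_m`,
`∑_m u_m^{-t} < ∞` for all `t > τ`, and `θ < 1`. (1) For all `a > 0` outside of a set of dimension at most
`(1 - 2β + τ) / (1 - θ)`, `L(D) ≤ C |D|^β` for all squarefree `D` in the windows around `a u_m`. (2) For almost all `a > 0` this
holds for all `β > (θ + τ) / 2` simultaneously. -/
theorem result {J : Type} [Countable J] (F : J → Type) [∀ j, Field (F j)] [∀ j, NumberField (F j)]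
    (P : ∀ j, Twists (F j)) (u : ℕ → ℝ) (τ θ : ℝ) (hu : ∀ m, 1 ≤ u m) (hτ : 0 ≤ τ)
    (hgrow : ∀ t : ℝ, τ < t → Summable fun m : ℕ => u m ^ (-t)) (hθ : θ < 1) :
    (∀ β : ℝ, 0 < β → β ≤ 1 / 2 → ∃ E : Set ℝ, dimH E ≤ ENNReal.ofReal ((1 - 2 * β + τ) / (1 - θ)) ∧
      ∀ a : ℝ, 0 < a → a ∉ E → ∀ j : J, ∃ C : ℝ, Bounded (P j) β a θ u C) ∧
    ∀ᵐ a : ℝ, 0 < a → ∀ (j : J) (β : ℝ), 0 < β → (θ + τ) / 2 < β → ∃ C : ℝ, Bounded (P j) β a θ u C := by
  constructor
  · intro β hβ hβ1
    choose E hE1 hE2 using fun j => Pool.Agent.H274.GWin.one (q := 2) (h := fun D : Reps (F j) => nrm D.1)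
      (v := fun D : Reps (F j) => (P j).value D.1) one_le_nrm (moment (P j)) (fun D => (P j).nonneg D.1) hu hτ hgrow hθ
      hβ (by push_cast; linarith)
    refine ⟨⋃ j, E j, ?_, fun a ha haE j => ?_⟩
    · rw [dimH_iUnion]
      exact iSup_le fun j => by exact_mod_cast hE1 j
    · obtain ⟨C, -, hC⟩ := hE2 j a ha fun h => haE (Set.mem_iUnion.2 ⟨j, h⟩)
      exact ⟨C, bounded_of hC⟩
  · have h : ∀ j : J, ∀ᵐ a : ℝ, 0 < a → ∀ β : ℝ, 0 < β → (θ + τ) / 2 < β → ∃ C : ℝ, Bounded (P j) β a θ u C := by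
      intro j
      have h1 := Pool.Agent.H274.GWin.ae_one (q := 2) (h := fun D : Reps (F j) => nrm D.1)
        (v := fun D : Reps (F j) => (P j).value D.1) one_le_nrm (by norm_num) (moment (P j)) (fun D => (P j).nonneg D.1)
        hu hτ hgrow hθ
      filter_upwards [h1] with a ha ha0 β hβ hβ2
      obtain ⟨C, hC⟩ := ha ha0 β hβ (by push_cast; exact hβ2)
      exact ⟨C, bounded_of hC⟩
    filter_upwards [ae_all_iff.2 h] with a ha ha0 j
    exact ha j ha0

end Pool.Agent.Results.MP_21d687_nt.WindowsOfTwists
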